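import Mathlib
import Pool.Agent.H355R3.Form6

set_option autoImplicit false

namespace Pool.Agent.Results.MP_58728c_al.SubformationFactorization

open H355R3

/-- Let `M` be a one-generated saturated formation and `F` a formation contained in `M`
(the hypothesis `F ≠ F * F` of the question is not needed). Then there are `t ≥ 1` and
non-decomposable formations `F₁, …, F_t` with `F = F₁ * ⋯ * F_t`. -/
theorem result (M : Formation) (hM : M.OneGeneratedSaturated) (F : Formation)
    (hFM : ∀ (X : Type) [Group X] [Finite X], F.Mem X → M.Mem X) :
    ∃ l : List Formation, l ≠ [] ∧ (∀ A ∈ l, NonDecomposable A) ∧ F = l.prod := by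
  obtain ⟨l, h1, h2, h3⟩ := main_factorization M hM F hFM
  exact ⟨l, h1, h2, h3.symm⟩

end Pool.Agent.Results.MP_58728c_al.SubformationFactorization
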